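import Mathlib
import Pool.Agent.J6H13.UM.All

set_option autoImplicit false

/-!
# The uniform prime k-tuplets conjecture in sequential random models of the primes

The question is whether every admissible system of `k` linear forms `a_i x + b_i`, `1 ≤ b_i < a_i`, takes only
prime values at some `n ≤ γ_k (a_1 ⋯ a_k) ^ A_k`.  We consider random models of the primes with a growing sieve:
the integers are decided one after the other; no `m` with a prime factor `q ∈ P`, `q ≤ z(m)`, is chosen;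
the conditional probability of choosing `m + 1` (without such prime factors) given the past is asymptotic
to `W / log m`, `W = ∏ (1 - 1/q)⁻¹` over the primes `q ∈ P`, `q ≤ z(m + 1)`.  Here `P` is any set of primes.
No independence and no rate is assumed.

(1) For every `ε > 0` there is `δ > 0` such that in all models with `z(m) ≤ m ^ δ` almost surely the assertion holds
with the exponent `ε` instead of `A_k`.
(2) For every `C` there is `D` such that in all models with `z(m) ≤ (log m) ^ C` almost surely the assertion holds with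
`(log (a_1 ⋯ a_k)) ^ D` instead of `(a_1 ⋯ a_k) ^ A_k`.

The proof combines the law of large numbers for families of hypergraphs of the starting project `Pool.Agent.R960.Fam`
(which is uniform in polynomially many families), and the fundamental lemma of the sieve, uniform in all systems
(`Pool.Agent.TH882.FL`).
-/

open MeasureTheory Filter
open scoped Topology

namespace Pool.Agent.Results.MP_746f10_nt.GrowingSieveModels

/-- `m` has no prime factor `q ∈ P`, `q ≤ z m` -/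
def Rough (P : Set ℕ) (z : ℕ → ℕ) (m : ℕ) : Prop := ∀ q ∈ P, q.Prime → q ≤ z m → ¬ q ∣ m

open Classical in
/-- `∏ (1 - 1/q)⁻¹` over the primes `q ≤ x` in `P` -/
noncomputable def W (P : Set ℕ) (x : ℕ) : ℝ :=
  ∏ q ∈ (Finset.Icc 1 x).filter (fun q => q.Prime ∧ q ∈ P), (1 - (q : ℝ)⁻¹)⁻¹

/-- a sequential random model of the primes sieved by the primes `q ∈ P`, `q ≤ z(m)` -/
structure IsModel {Ω : Type} [mΩ : MeasurableSpace Ω] (μ : Measure Ω) (ℱ : Filtration ℕ mΩ)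
    (S : ℕ → Set Ω) (P : Set ℕ) (z : ℕ → ℕ) : Prop where
  /-- whether `n` is chosen is known at the time `n` -/
  adapted : ∀ n, MeasurableSet[ℱ n] (S n)
  /-- no `n` with a prime factor `q ∈ P`, `q ≤ z n`, is chosen -/
  sieved : ∀ n, ¬ Rough P z n → S n = ∅
  /-- the conditional probability of `S (n + 1)` given `ℱ n` is asymptotic to `W P (z (n + 1)) / log n`
  along the `n` with `Rough P z (n + 1)` -/
  density : ∀ᵐ ω ∂μ, Tendsto (fun n : ℕ =>
    (μ[(S (n + 1)).indicator (fun _ => (1 : ℝ)) | ℱ n]) ω * Real.log n / W P (z (n + 1)))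
    (atTop ⊓ 𝓟 {n : ℕ | Rough P z (n + 1)}) (𝓝 1)

/-- `1 ≤ b_i < a_i`, and for every prime `q ∈ P` there is `m` such that `q` divides none of the `a_i m + b_i` -/
def Admissible (P : Set ℕ) {k : ℕ} (a b : Fin k → ℕ) : Prop :=
  (∀ i, 1 ≤ b i ∧ b i < a i) ∧ ∀ q ∈ P, q.Prime → ∃ m : ℕ, ∀ i, ¬ q ∣ a i * m + b i

lemma conv {Ω : Type} {P : Set ℕ} {k : ℕ} (hk : 1 ≤ k) (T : ℕ → ℝ) (hT : ∀ x y : ℕ, 2 ≤ x → x ≤ y → T x ≤ T y)
    {A : ℕ → Set Ω} {ω : Ω} {γ : ℝ} (hγ : 0 < γ)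
    (h : ∀ L : Finset (ℕ × ℕ), L.Nonempty → L.card ≤ k → (∀ f ∈ L, 1 ≤ f.2 ∧ f.2 < f.1) →
      Pool.Agent.J6H13.UM.Adm P L →
      ∃ n : ℕ, (n : ℝ) ≤ γ * T (∏ f ∈ L, f.1) ∧ ∀ f ∈ L, ω ∈ A (f.1 * n + f.2))
    (a b : Fin k → ℕ) (hab : Admissible P a b) :
    ∃ n : ℕ, (n : ℝ) ≤ γ * T (∏ i, a i) ∧ ∀ i, ω ∈ A (a i * n + b i) := by
  classical
  obtain ⟨h1, h2⟩ := hab
  obtain ⟨L, hL⟩ : ∃ L : Finset (ℕ × ℕ), L = Finset.univ.image (fun i => (a i, b i)) := ⟨_, rfl⟩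
  have hmem : ∀ f ∈ L, ∃ i, (a i, b i) = f := by
    intro f hf
    rw [hL, Finset.mem_image] at hf
    obtain ⟨i, -, hi⟩ := hf
    exact ⟨i, hi⟩
  have hmem2 : ∀ i, (a i, b i) ∈ L := fun i => by
    rw [hL]
    exact Finset.mem_image_of_mem _ (Finset.mem_univ i)
  have hne : L.Nonempty := ⟨_, hmem2 ⟨0, hk⟩⟩
  have hcard : L.card ≤ k := by
    rw [hL]
    exact Finset.card_image_le.trans (by simp)
  have hf : ∀ f ∈ L, 1 ≤ f.2 ∧ f.2 < f.1 := by
    intro f hf
    obtain ⟨i, rfl⟩ := hmem f hf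
    exact h1 i
  obtain ⟨n, hn1, hn2⟩ := h L hne hcard hf (fun q hq hqp => by
    obtain ⟨m, hm⟩ := h2 q hq hqp
    refine ⟨m, fun f hf => ?_⟩
    obtain ⟨i, rfl⟩ := hmem f hf
    exact hm i)
  refine ⟨n, hn1.trans (mul_le_mul_of_nonneg_left (hT _ _ ?_ ?_) hγ.le), fun i => hn2 _ (hmem2 i)⟩
  · obtain ⟨f, hfL⟩ := hne
    have h3 := hf f hfL
    have h4 : f.1 ≤ ∏ f ∈ L, f.1 :=
      Finset.single_le_prod' (f := fun f : ℕ × ℕ => f.1) (fun g hg => by have := hf g hg; omega) hfL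
    omega
  · have e1 : ∏ i, a i = ∏ f ∈ L, f.1 ^ ((Finset.univ.filter (fun i => (a i, b i) = f)).card) := by
      rw [hL]
      exact Finset.prod_comp (fun f : ℕ × ℕ => f.1) (fun i => (a i, b i))
    rw [e1]
    apply Finset.prod_le_prod'
    intro f hfL
    obtain ⟨i, rfl⟩ := hmem f hfL
    apply Nat.le_self_pow
    intro h0
    rw [Finset.card_eq_zero] at h0
    have : i ∈ Finset.univ.filter (fun j => (a j, b j) = (a i, b i)) := by simp
    rw [h0] at this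
    exact absurd this (Finset.notMem_empty i)

/-- The uniform prime `k`-tuplets conjecture holds almost surely in all sequential random models with
`z(m) ≤ m ^ δ`, with every exponent `ε > 0` (`δ` depends on `ε` and `k`), and with a power of the logarithm in
all models with `z(m) ≤ (log m) ^ C`. -/
theorem result (k : ℕ) (hk : 1 ≤ k) :
    (∀ ε : ℝ, 0 < ε → ∃ δ : ℝ, 0 < δ ∧ ∀ (P : Set ℕ) (z : ℕ → ℕ),
      (∀ᶠ n : ℕ in atTop, (z n : ℝ) ≤ (n : ℝ) ^ δ) →
      ∀ {Ω : Type} [mΩ : MeasurableSpace Ω] (μ : Measure Ω) [IsProbabilityMeasure μ]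
        (ℱ : Filtration ℕ mΩ) (S : ℕ → Set Ω), IsModel μ ℱ S P z →
        ∀ᵐ ω ∂μ, ∃ γ : ℝ, 0 < γ ∧ ∀ a b : Fin k → ℕ, Admissible P a b →
          ∃ n : ℕ, (n : ℝ) ≤ γ * ((∏ i, a i : ℕ) : ℝ) ^ ε ∧ ∀ i, ω ∈ S (a i * n + b i)) ∧
    (∀ C : ℕ, ∃ D : ℕ, ∀ (P : Set ℕ) (z : ℕ → ℕ),
      (∀ᶠ n : ℕ in atTop, (z n : ℝ) ≤ Real.log n ^ C) →
      ∀ {Ω : Type} [mΩ : MeasurableSpace Ω] (μ : Measure Ω) [IsProbabilityMeasure μ]
        (ℱ : Filtration ℕ mΩ) (S : ℕ → Set Ω), IsModel μ ℱ S P z →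
        ∀ᵐ ω ∂μ, ∃ γ : ℝ, 0 < γ ∧ ∀ a b : Fin k → ℕ, Admissible P a b →
          ∃ n : ℕ, (n : ℝ) ≤ γ * Real.log ((∏ i, a i : ℕ) : ℝ) ^ D ∧ ∀ i, ω ∈ S (a i * n + b i)) := by
  constructor
  · intro ε hε
    obtain ⟨e, he⟩ : ∃ e : ℝ, e = min ε (1 / 2) := ⟨_, rfl⟩
    have he0 : 0 < e := by rw [he]; exact lt_min hε (by norm_num)
    have he1 : e < 1 := by rw [he]; exact lt_of_le_of_lt (min_le_right _ _) (by norm_num)
    have he2 : e ≤ ε := he ▸ min_le_left _ _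
    obtain ⟨δ, hδ, h⟩ := Pool.Agent.J6H13.UM.pow_all e he0 k
    refine ⟨δ, hδ, ?_⟩
    intro P z hz Ω mΩ μ _ ℱ S hM
    filter_upwards [h P z hz ⟨hM.adapted, hM.sieved, hM.density⟩] with ω hω
    obtain ⟨γ, hγ, h2⟩ := Pool.Agent.J6H13.UM.least P k (fun x : ℕ => (x : ℝ) ^ e) S ω 1 one_pos
      (fun x hx => Real.one_le_rpow (by exact_mod_cast (by omega : 1 ≤ x)) he0.le)
      (Pool.Agent.J6H13.UM.pow_room e he1 he0) hω
    refine ⟨γ, hγ, fun a b hab => ?_⟩
    obtain ⟨n, hn1, hn2⟩ := conv hk (fun x : ℕ => (x : ℝ) ^ e)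
      (fun x y _ hxy => Real.rpow_le_rpow (Nat.cast_nonneg x) (by exact_mod_cast hxy) he0.le) hγ h2 a b hab
    refine ⟨n, hn1.trans (mul_le_mul_of_nonneg_left (Real.rpow_le_rpow_of_exponent_le ?_ he2) hγ.le), hn2⟩
    have h3 : 1 ≤ ∏ i, a i := by
      apply Nat.one_le_iff_ne_zero.2
      rw [Finset.prod_ne_zero_iff]
      intro i _
      have := hab.1 i
      omega
    exact_mod_cast h3
  · intro C
    obtain ⟨D, h⟩ := Pool.Agent.J6H13.UM.log_all C k
    refine ⟨D, ?_⟩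
    intro P z hz Ω mΩ μ _ ℱ S hM
    filter_upwards [h P z hz ⟨hM.adapted, hM.sieved, hM.density⟩] with ω hω
    have hl2 : 0 < Real.log 2 := Real.log_pos (by norm_num)
    obtain ⟨γ, hγ, h2⟩ := Pool.Agent.J6H13.UM.least P k (fun x : ℕ => Real.log x ^ D) S ω (Real.log 2 ^ D)
      (by positivity)
      (fun x hx => pow_le_pow_left₀ hl2.le (Real.log_le_log (by norm_num) (by exact_mod_cast hx)) D)
      (Pool.Agent.J6H13.UM.log_room D) hω
    refine ⟨γ, hγ, fun a b hab => ?_⟩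
    exact conv hk (fun x : ℕ => Real.log x ^ D)
      (fun x y hx hxy => pow_le_pow_left₀ (Real.log_natCast_nonneg x)
        (Real.log_le_log (by exact_mod_cast (by omega : 0 < x)) (by exact_mod_cast hxy)) D) hγ h2 a b hab

end Pool.Agent.Results.MP_746f10_nt.GrowingSieveModels
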