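import Pool.Agent.J6H61.UT.Main
import Pool.Agent.J6H61.UT.Size

set_option autoImplicit false

/-!
# Systems of linear forms whose least solution is large

For a positive proportion of the admissible sets `{a_i x + b_i}` with given large leading coefficients
`a_1, ..., a_k` (equal or not, of arbitrarily different sizes) the least `n ≥ 0` for which all the numbers
`a_i n + b_i` are prime exceeds `K ∏ (φ(a_i) / a_i) log a_i`, for every `K`; the proportion is at least
`exp (-exp (C_k K))`. More generally any set `T` of at most `K ∏ (φ(a_i) / a_i) log a_i` values of `n`, at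
most a fixed power of one of the `a_j`, may be prescribed in which there is no solution. So the order of
magnitude of `n` in the positive results of the starting library (`PositiveProportion`,
`UnequalLeadingCoefficients`) is the correct one, and the distribution of the least solution has no bounded
support at this scale.

Proof: averaging over the `b_i`, `i ≠ j` (Brun-Titchmarsh), there remain at most
`K' (φ(a_j) / a_j) log a_j` values of `n ∈ T` for which all the `a_i n + b_i`, `i ≠ j`, are prime; the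
covering sieve of the starting library (`Pool.Agent.N837.LP.mainG`) for the linear forms `b + a_j n` in the
variable `b = b_j` takes care of them.
-/

namespace Pool.Agent.Results.MP_746f10_nt.LargeLeastSolutions
open Finset

/-- the set of linear forms `a i * x + b i` is admissible in the sense of the problem -/
def Admissible {k : ℕ} (a b : Fin k → ℕ) : Prop :=
  (∀ i, 1 ≤ b i ∧ b i < a i) ∧ ∀ p : ℕ, p.Prime → ∃ n : ℤ, ∀ i, ¬ (p : ℤ) ∣ a i * n + b i

open Classical in
/-- **Systems without small solutions.** For every `k` there is a constant `C` such that for all `K, B ≥ 1`,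
all sufficiently large `a 1, ..., a k`, every `j` and every finite set `T` of natural numbers `n ≤ (a j) ^ B`
with `#T ≤ K ∏ (φ(a i) / a i) log (a i)`: for at least `exp (-exp (C K)) ∏ φ(a i)` of the admissible sets of
`k` distinct linear forms `a i * x + b i` there is no `n ∈ T` for which all the numbers `a i * n + b i` are
prime. In particular this holds for the set of all `n ≤ N` if `N + 1 ≤ K ∏ (φ(a i) / a i) log (a i)`. -/
theorem result (k : ℕ) (hk : 1 ≤ k) : ∃ C : ℝ, 0 < C ∧ ∀ K B : ℝ, 1 ≤ K → 1 ≤ B → ∃ a₀ : ℕ,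
    ∀ a : Fin k → ℕ, (∀ i, a₀ ≤ a i) →
    (∀ (j : Fin k) (T : Finset ℕ), (∀ n ∈ T, (n : ℝ) ≤ (a j : ℝ) ^ B) →
      (#T : ℝ) ≤ K * ∏ i, ((a i).totient * Real.log (a i) / a i : ℝ) →
      Real.exp (-Real.exp (C * K)) * ∏ i, ((a i).totient : ℝ) ≤
        #{b ∈ Fintype.piFinset (fun i => Ico 1 (a i)) | Function.Injective (fun i => (a i, b i)) ∧
          Admissible a b ∧ ∀ n ∈ T, ∃ i, ¬ (a i * n + b i).Prime}) ∧
    ∀ N : ℕ, (N : ℝ) + 1 ≤ K * ∏ i, ((a i).totient * Real.log (a i) / a i : ℝ) →
      Real.exp (-Real.exp (C * K)) * ∏ i, ((a i).totient : ℝ) ≤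
        #{b ∈ Fintype.piFinset (fun i => Ico 1 (a i)) | Function.Injective (fun i => (a i, b i)) ∧
          Admissible a b ∧ ∀ n : ℕ, n ≤ N → ∃ i, ¬ (a i * n + b i).Prime} := by
  obtain ⟨C, hC, h⟩ := Pool.Agent.J6H61.UT.main k
  refine ⟨C, hC, fun K B hK hB => ?_⟩
  obtain ⟨a₀, h⟩ := h K B hK hB
  obtain ⟨a₁, h1⟩ := Pool.Agent.J6H61.UT.size k K
  refine ⟨max a₀ a₁, fun a ha => ?_⟩
  have hT : ∀ (j : Fin k) (T : Finset ℕ), (∀ n ∈ T, (n : ℝ) ≤ (a j : ℝ) ^ B) →
      (#T : ℝ) ≤ K * ∏ i, ((a i).totient * Real.log (a i) / a i : ℝ) →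
      Real.exp (-Real.exp (C * K)) * ∏ i, ((a i).totient : ℝ) ≤
        #{b ∈ Fintype.piFinset (fun i => Ico 1 (a i)) | Function.Injective (fun i => (a i, b i)) ∧
          Admissible a b ∧ ∀ n ∈ T, ∃ i, ¬ (a i * n + b i).Prime} := by
    intro j T hT hTc
    have h2 := h a (fun i => (le_max_left _ _).trans (ha i)) j T hT hTc
    refine h2.trans (le_of_eq ?_)
    congr 2
  refine ⟨hT, fun N hN => ?_⟩
  obtain ⟨j, hj1, hj2⟩ := h1 hk a (fun i => (le_max_right _ _).trans (ha i))
  have h3 := hT j (range (N + 1)) (fun n hn => by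
    rw [mem_range] at hn
    have e1 : (n : ℝ) ≤ N := by exact_mod_cast Nat.lt_succ_iff.1 hn
    calc (n : ℝ) ≤ a j := by linarith
      _ = (a j : ℝ) ^ (1 : ℝ) := (Real.rpow_one _).symm
      _ ≤ (a j : ℝ) ^ B := Real.rpow_le_rpow_of_exponent_le hj1 hB) (by
    rw [card_range]
    push_cast
    exact hN)
  refine h3.trans ?_
  norm_cast
  apply card_le_card
  intro b hb
  rw [mem_filter] at hb ⊢
  exact ⟨hb.1, hb.2.1, hb.2.2.1, fun n hn => hb.2.2.2 n (mem_range.2 (Nat.lt_succ_of_le hn))⟩

end Pool.Agent.Results.MP_746f10_nt.LargeLeastSolutions
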