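import Pool.Agent.J6H61.UT.Main2
import Pool.Agent.J6H61.UT.Size2

set_option autoImplicit false

/-!
# Systems of linear forms with a very large least solution

For all sufficiently large `a_1, ..., a_k` (equal or not, of arbitrarily different sizes) there are
admissible sets `{a_i x + b_i}` for which no integer
`0 ≤ n ≤ c ∏ (φ(a_i) / a_i) log a_i · log log (max a_i)` makes all the numbers `a_i n + b_i` prime. More
generally any set `T` of that many values of `n`, at most a fixed power of one of the `a_j`, may be prescribed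
in which there is no solution (with `log log a_j` in the place of `log log (max a_i)`), and there are at least
`c ∏_{i ≠ j} φ(a_i)` such systems. So the least solution may exceed its expected order
`∏ (φ(a_i) / a_i) log a_i` by an unbounded factor, whatever the `a_i` are. The case `k = 1` and `T` an interval
is the theorem `MP_458f0b_nt.EveryModulus` of the starting library.

Proof: averaging over the `b_i`, `i ≠ j` (Brun-Titchmarsh), a greedy choice of `b_j` modulo the primes up to
`(log a_j) / 10`, and the covering theorem of the starting library (`Pool.Agent.H256R2.SC`) in a form in which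
up to `(log X) ^ 4 / 2` primes may be excluded (`Pool.Agent.J6H61.UT.covering4`).
-/

namespace Pool.Agent.Results.MP_746f10_nt.RecordLeastSolutions
open Finset

/-- the set of linear forms `a i * x + b i` is admissible in the sense of the problem -/
def Admissible {k : ℕ} (a b : Fin k → ℕ) : Prop :=
  (∀ i, 1 ≤ b i ∧ b i < a i) ∧ ∀ p : ℕ, p.Prime → ∃ n : ℤ, ∀ i, ¬ (p : ℤ) ∣ a i * n + b i

open Classical in
/-- **Systems with a very large least solution.** For every `k` there is a `c > 0` such that for every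
`B ≥ 1` and all sufficiently large `a 1, ..., a k`:

(1) for every `j` and every finite set `T` of natural numbers `n ≤ (a j) ^ B` with
`#T ≤ c ∏ (φ(a i) / a i) log (a i) · log log (a j)` there are at least `c ∏_{i ≠ j} φ(a i)` admissible sets of
`k` distinct linear forms `a i * x + b i` for which there is no `n ∈ T` such that all the numbers
`a i * n + b i` are prime;

(2) if `a j` is the largest of the `a i` and `N + 1 ≤ c ∏ (φ(a i) / a i) log (a i) · log log (a j)`, then this
holds for the set of all `n ≤ N`. -/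
theorem result (k : ℕ) : ∃ c : ℝ, 0 < c ∧ ∀ B : ℝ, 1 ≤ B → ∃ a₀ : ℕ,
    ∀ a : Fin k → ℕ, (∀ i, a₀ ≤ a i) → ∀ j : Fin k,
    (∀ T : Finset ℕ, (∀ n ∈ T, (n : ℝ) ≤ (a j : ℝ) ^ B) →
      (#T : ℝ) ≤ c * (∏ i, ((a i).totient * Real.log (a i) / a i : ℝ)) *
        Real.log (Real.log (a j)) →
      c * ∏ i ∈ univ.erase j, ((a i).totient : ℝ) ≤
        #{b ∈ Fintype.piFinset (fun i => Ico 1 (a i)) | Function.Injective (fun i => (a i, b i)) ∧
          Admissible a b ∧ ∀ n ∈ T, ∃ i, ¬ (a i * n + b i).Prime}) ∧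
    ((∀ i, a i ≤ a j) → ∀ N : ℕ,
      (N : ℝ) + 1 ≤ c * (∏ i, ((a i).totient * Real.log (a i) / a i : ℝ)) *
        Real.log (Real.log (a j)) →
      c * ∏ i ∈ univ.erase j, ((a i).totient : ℝ) ≤
        #{b ∈ Fintype.piFinset (fun i => Ico 1 (a i)) | Function.Injective (fun i => (a i, b i)) ∧
          Admissible a b ∧ ∀ n : ℕ, n ≤ N → ∃ i, ¬ (a i * n + b i).Prime}) := by
  obtain ⟨c, hc, h⟩ := Pool.Agent.J6H61.UT.main_rec k
  refine ⟨c, hc, fun B hB => ?_⟩
  obtain ⟨a₀, h⟩ := h B hB
  obtain ⟨a₁, h1⟩ := Pool.Agent.J6H61.UT.size2 k c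
  refine ⟨max a₀ a₁, fun a ha j => ?_⟩
  have hT : ∀ T : Finset ℕ, (∀ n ∈ T, (n : ℝ) ≤ (a j : ℝ) ^ B) →
      (#T : ℝ) ≤ c * (∏ i, ((a i).totient * Real.log (a i) / a i : ℝ)) *
        Real.log (Real.log (a j)) →
      c * ∏ i ∈ univ.erase j, ((a i).totient : ℝ) ≤
        #{b ∈ Fintype.piFinset (fun i => Ico 1 (a i)) | Function.Injective (fun i => (a i, b i)) ∧
          Admissible a b ∧ ∀ n ∈ T, ∃ i, ¬ (a i * n + b i).Prime} := by
    intro T hT hTc
    have h2 := h a (fun i => (le_max_left _ _).trans (ha i)) j T hT hTc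
    refine h2.trans (le_of_eq ?_)
    congr 2
  refine ⟨hT, fun hj N hN => ?_⟩
  obtain ⟨hj1, hj2⟩ := h1 a (fun i => (le_max_right _ _).trans (ha i)) j hj
  have h3 := hT (range (N + 1)) (fun n hn => by
    rw [mem_range] at hn
    have e1 : (n : ℝ) ≤ N := by exact_mod_cast Nat.lt_succ_iff.1 hn
    calc (n : ℝ) ≤ a j := by linarith
      _ = (a j : ℝ) ^ (1 : ℝ) := (Real.rpow_one _).symm
      _ ≤ (a j : ℝ) ^ B := Real.rpow_le_rpow_of_exponent_le hj1 hB) (by
    rw [card_range]
    push_cast
    exact hN)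
  refine h3.trans ?_
  norm_cast
  apply card_le_card
  intro b hb
  rw [mem_filter] at hb ⊢
  exact ⟨hb.1, hb.2.1, hb.2.2.1, fun n hn => hb.2.2.2 n (mem_range.2 (Nat.lt_succ_of_le hn))⟩

end Pool.Agent.Results.MP_746f10_nt.RecordLeastSolutions
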