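import Pool.Agent.J6H28.UT.Main

set_option autoImplicit false

/-!
# Small least solutions in the uniform prime `k`-tuplets conjecture

For large `a 1, ..., a k` (equal or not) let `E = ∏ φ(a i) log (a i) / a i`, and for a finite set `T` of
positive integers let `count a T` be the number of the vectors `(b 1, ..., b k)`, `1 ≤ b i < a i`, such that
the forms `a i * x + b i` are distinct and admissible, and all prime at some `n ∈ T`.

* For every set `T` contained in a window of length `δ E` the count is `(1 + O(ε)) #T ∏ a i / log (a i)`, the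
  asymptotic value which is obtained if each `n ∈ T` is considered separately.
* For every set `T` in a window of length `N`, the count is at most `C #T ∏ a i / log (a i)` and at least
  `c (1 + N / E)⁻¹ #T ∏ a i / log (a i)`.
* So the distribution function of the least positive solution is determined up to constants at all
  scales: the number of the admissible vectors with a solution `1 ≤ n ≤ N` is between
  `c min (1, N / E) ∏ φ(a i)` and `C (N / E) ∏ φ(a i)`.

The case `k = 1` of the last point (the least prime in an arithmetic progression) is due to Erdős (1949).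
-/

namespace Pool.Agent.Results.MP_746f10_nt.SmallLeastSolutions
open Finset

/-- the set of linear forms `a i * x + b i` is admissible in the sense of the problem -/
def Admissible {k : ℕ} (a b : Fin k → ℕ) : Prop :=
  (∀ i, 1 ≤ b i ∧ b i < a i) ∧ ∀ p : ℕ, p.Prime → ∃ n : ℤ, ∀ i, ¬ (p : ℤ) ∣ a i * n + b i

open Classical in
/-- the number of the vectors `b` for which the forms `a i * x + b i` are distinct and admissible, and all
prime at some `x = n` with `n ∈ T` -/
noncomputable def count {k : ℕ} (a : Fin k → ℕ) (T : Finset ℕ) : ℕ :=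
  #{b ∈ Fintype.piFinset (fun i => Ico 1 (a i)) |
    Function.Injective (fun i => (a i, b i)) ∧ Admissible a b ∧ ∃ n ∈ T, ∀ i, (a i * n + b i).Prime}

/-- `E = ∏ φ(a i) log (a i) / a i`, the expected order of magnitude of the least solution -/
noncomputable def scale {k : ℕ} (a : Fin k → ℕ) : ℝ := ∏ i, ((a i).totient * Real.log (a i) / a i)

open Classical Pool.Agent.J6H28.UT Pool.Agent.H262R2.UK TH415.UL in
theorem count_eq {k : ℕ} (a : Fin k → ℕ) (T : Finset ℕ) (ha : ∀ i, k < a i) (hT : ∀ n ∈ T, 1 ≤ n) :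
    count a T = FF a T := by
  unfold count FF
  congr 1
  ext b
  rw [mem_filter, mem_filter, Om, Fintype.mem_piFinset, Fintype.mem_piFinset]
  constructor
  · rintro ⟨hb, hinj, hadm, n, hn, hp⟩
    refine ⟨fun i => ?_, hinj, ?_⟩
    · have hbi := mem_Ico.1 (hb i)
      unfold BB
      rw [mem_filter]
      refine ⟨hb i, ?_⟩
      have h1 : Nat.gcd (a i) (b i) ∣ a i * n + b i :=
        dvd_add ((Nat.gcd_dvd_left _ _).mul_right n) (Nat.gcd_dvd_right _ _)
      rcases (Nat.dvd_prime (hp i)).1 h1 with h2 | h2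
      · exact h2
      · have h3 := Nat.le_of_dvd (by omega) (Nat.gcd_dvd_right (a i) (b i))
        have h4 : a i ≤ a i * n := Nat.le_mul_of_pos_right _ (hT n hn)
        omega
    · unfold RT
      exact card_pos.2 ⟨n, mem_filter.2 ⟨hn, hp⟩⟩
  · rintro ⟨hb, hinj, hR⟩
    have hb' : ∀ i, (1 ≤ b i ∧ b i < a i) ∧ (a i).Coprime (b i) := by
      intro i
      have := hb i
      unfold BB at this
      rw [mem_filter, mem_Ico] at this
      exact this
    unfold RT at hR
    obtain ⟨n, hn⟩ := card_pos.1 hR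
    rw [mem_filter] at hn
    refine ⟨fun i => mem_Ico.2 (hb' i).1, hinj, ⟨fun i => (hb' i).1, fun p hp => ?_⟩, n, hn.1, hn.2⟩
    exact adm1 a b n (hT n hn.1) ha (fun i => (hb' i).1.1) (fun i => (hb' i).2) hn.2 p hp

/-- (1) For every set `T` of positive integers in a window of length at most `δ E`, where the elements of `T`
are bounded by powers of the logarithms of the `a i`, the number of the admissible vectors with a prime point
in `T` is `(1 + O(ε)) #T ∏ a i / log (a i)`.
(2) With an absolute `δ > 0`, for every set `T` of positive integers in a window of length `N` with end at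
most `a i ^ δ`, `i ≤ k`, this number is between `c #T ∏ (a i / log (a i)) / (1 + N / E)` and
`C #T ∏ (a i / log (a i))`; and the number of the admissible vectors with a solution `1 ≤ n ≤ N` is between
`c min (1, N / E) ∏ φ(a i)` and `C (N / E) ∏ φ(a i)`. -/
theorem result :
    (∀ k B : ℕ, ∀ ε : ℝ, 0 < ε → ∃ δ : ℝ, 0 < δ ∧ ∃ a₀ : ℕ, ∀ a : Fin k → ℕ, (∀ i, a₀ ≤ a i) →
      ∀ y N : ℕ, (∀ i, ((y + N : ℕ) : ℝ) ≤ Real.log (a i) ^ B) → (N : ℝ) ≤ δ * scale a →
      ∀ T ⊆ Ioc y (y + N),
        |(count a T : ℝ) - #T * ∏ i, ((a i : ℝ) / Real.log (a i))| ≤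
          ε * (#T * ∏ i, ((a i : ℝ) / Real.log (a i)))) ∧
    (∃ δ : ℝ, 0 < δ ∧ δ < 1 ∧ ∀ k : ℕ, ∃ c C : ℝ, 0 < c ∧ 0 < C ∧ ∃ a₀ : ℕ, ∀ a : Fin k → ℕ,
      (∀ i, a₀ ≤ a i) → ∀ y N : ℕ, (∀ i, ((y + N : ℕ) : ℝ) ≤ (a i : ℝ) ^ δ) →
        (∀ T ⊆ Ioc y (y + N),
          c * (#T * ∏ i, ((a i : ℝ) / Real.log (a i))) / (1 + N / scale a) ≤ (count a T : ℝ) ∧
          (count a T : ℝ) ≤ C * (#T * ∏ i, ((a i : ℝ) / Real.log (a i)))) ∧
        (c * min 1 (N / scale a) * ∏ i, ((a i).totient : ℝ) ≤ (count a (Icc 1 N) : ℝ) ∧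
          (count a (Icc 1 N) : ℝ) ≤ C * (N / scale a) * ∏ i, ((a i).totient : ℝ))) := by
  refine ⟨?_, ?_⟩
  · intro k B ε hε
    obtain ⟨δ, hδ, a₀, h⟩ := Pool.Agent.J6H28.UT.part1 k B ε hε
    refine ⟨δ, hδ, max a₀ (k + 1), ?_⟩
    intro a ha y N hN hNE T hT
    rw [count_eq a T (fun i => lt_of_lt_of_le (Nat.lt_succ_self k) ((le_max_right _ _).trans (ha i)))
      (fun n hn => by have := mem_Ioc.1 (hT hn); omega)]
    exact h a (fun i => (le_max_left _ _).trans (ha i)) y N hN hNE T hT
  · obtain ⟨δ, hδ, hδ1, h⟩ := Pool.Agent.J6H28.UT.part2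
    refine ⟨δ, hδ, hδ1, fun k => ?_⟩
    obtain ⟨c, C, hc, hC, a₀, h⟩ := h k
    refine ⟨c / 2, C, by positivity, hC, max (max a₀ (k + 1)) 2, ?_⟩
    intro a ha y N hyN
    have hA0 : ∀ i, a₀ ≤ a i := fun i => ((le_max_left _ _).trans (le_max_left _ _)).trans (ha i)
    have hA1 : ∀ i, k < a i := fun i =>
      lt_of_lt_of_le (Nat.lt_succ_self k) (((le_max_right _ _).trans (le_max_left _ _)).trans (ha i))
    have hA2 : ∀ i, 2 ≤ a i := fun i => (le_max_right _ _).trans (ha i)
    have hE : 0 < scale a := Pool.Agent.J6H28.UT.EE_pos a hA2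
    have hQ : 0 < ∏ i, ((a i : ℝ) / Real.log (a i)) := Pool.Agent.J6H28.UT.QQ_pos a hA2
    have hQE : (∏ i, ((a i : ℝ) / Real.log (a i))) * scale a = ∏ i, ((a i).totient : ℝ) :=
      Pool.Agent.J6H28.UT.QE a hA2
    have hN0 : (0 : ℝ) ≤ N := Nat.cast_nonneg N
    have hu : 0 < 1 + (N : ℝ) / scale a := by positivity
    constructor
    · intro T hT
      rw [count_eq a T hA1 (fun n hn => by have := mem_Ioc.1 (hT hn); omega)]
      obtain ⟨h1, h2⟩ := h a hA0 y N hyN T hT
      refine ⟨?_, h2⟩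
      rw [div_le_iff₀ hu]
      have h3 : 0 ≤ (#T : ℝ) * ∏ i, ((a i : ℝ) / Real.log (a i)) := by positivity
      have h4 : c * (#T * ∏ i, ((a i : ℝ) / Real.log (a i))) ≤
          (1 + (N : ℝ) / scale a) * (Pool.Agent.J6H28.UT.FF a T : ℝ) := h1
      nlinarith
    · have hI : Icc 1 N = Ioc 0 (0 + N) := by
        ext n; simp only [mem_Icc, mem_Ioc]; omega
      have hy0 : ∀ i, ((0 + N : ℕ) : ℝ) ≤ (a i : ℝ) ^ δ := by
        intro i
        refine le_trans ?_ (hyN i)
        exact_mod_cast (by omega : 0 + N ≤ y + N)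
      rw [hI, count_eq a _ hA1 (fun n hn => by have := mem_Ioc.1 hn; omega)]
      obtain ⟨h1, h2⟩ := h a hA0 0 N hy0 (Ioc 0 (0 + N)) (Subset.refl _)
      have hcard : (#(Ioc 0 (0 + N)) : ℝ) = N := by simp
      rw [hcard] at h1 h2
      set Q : ℝ := ∏ i, ((a i : ℝ) / Real.log (a i)) with hQd
      have h1' : c * (N * Q) ≤ (1 + (N : ℝ) / scale a) *
          (Pool.Agent.J6H28.UT.FF a (Ioc 0 (0 + N)) : ℝ) := h1
      have h2' : (Pool.Agent.J6H28.UT.FF a (Ioc 0 (0 + N)) : ℝ) ≤ C * (N * Q) := h2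
      rw [← hQE]
      have e1 : (N : ℝ) * Q = N / scale a * (Q * scale a) := by field_simp
      constructor
      · have hv0 : 0 ≤ (N : ℝ) / scale a := by positivity
        have hF0 : (0 : ℝ) ≤ (Pool.Agent.J6H28.UT.FF a (Ioc 0 (0 + N)) : ℝ) := Nat.cast_nonneg _
        set v : ℝ := (N : ℝ) / scale a with hv
        set F : ℝ := (Pool.Agent.J6H28.UT.FF a (Ioc 0 (0 + N)) : ℝ) with hF
        rw [e1] at h1'
        have hΦ : 0 < Q * scale a := by positivity
        -- (1 + v) min 1 v ≤ 2 v
        have h5 : (1 + v) * min 1 v ≤ 2 * v := by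
          rcases le_total 1 v with h | h
          · rw [min_eq_left h]; linarith
          · rw [min_eq_right h]; nlinarith
        have h6 : (1 + v) * (c / 2 * min 1 v * (Q * scale a)) ≤ (1 + v) * F := by
          calc (1 + v) * (c / 2 * min 1 v * (Q * scale a)) =
              c / 2 * (Q * scale a) * ((1 + v) * min 1 v) := by ring
            _ ≤ c / 2 * (Q * scale a) * (2 * v) := by gcongr
            _ = c * (v * (Q * scale a)) := by ring
            _ ≤ _ := h1'
        exact le_of_mul_le_mul_left h6 hu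
      · calc (Pool.Agent.J6H28.UT.FF a (Ioc 0 (0 + N)) : ℝ) ≤ C * (N * Q) := h2'
          _ = C * (N / scale a) * (Q * scale a) := by rw [e1]; ring

end Pool.Agent.Results.MP_746f10_nt.SmallLeastSolutions
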